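import Mathlib

/-! Traces of fifth powers of a rank one matrix plus a perturbation. -/

set_option autoImplicit false

open Finset Matrix

namespace Pool.Agent.MP_344f7e_co.H47

section Fr
variable {α β : Type} [Fintype α] [Fintype β]

/-- the sum of the squares of the entries -/
def fr (A : Matrix α β ℝ) : ℝ := ∑ i, ∑ j, A i j ^ 2

lemma fr_nonneg (A : Matrix α β ℝ) : 0 ≤ fr A :=
  sum_nonneg fun _ _ => sum_nonneg fun _ _ => sq_nonneg _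

lemma tr_ip (A B : Matrix α β ℝ) : trace (A * Bᵀ) = ∑ i, ∑ j, A i j * B i j := by
  simp [trace, mul_apply]

lemma fr_eq (A : Matrix α β ℝ) : fr A = trace (A * Aᵀ) := by
  rw [tr_ip, fr]
  simp only [sq]

lemma ip_sq (A B : Matrix α β ℝ) : trace (A * Bᵀ) ^ 2 ≤ fr A * fr B := by
  have h := sum_mul_sq_le_sq_mul_sq (univ : Finset (α × β)) (fun q => A q.1 q.2)
    (fun q => B q.1 q.2)
  simp only [Fintype.sum_prod_type] at h
  rw [tr_ip]
  exact h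

lemma fr_add {A B : Matrix α β ℝ} {a b : ℝ} (ha : 0 ≤ a) (hb : 0 ≤ b) (hA : fr A ≤ a ^ 2)
    (hB : fr B ≤ b ^ 2) : fr (A + B) ≤ (a + b) ^ 2 := by
  have h1 : fr (A + B) = fr A + 2 * trace (A * Bᵀ) + fr B := by
    rw [tr_ip]
    simp only [fr, Matrix.add_apply, add_sq, sum_add_distrib, mul_sum, mul_assoc]
  have h2 : trace (A * Bᵀ) ^ 2 ≤ (a * b) ^ 2 := by
    refine (ip_sq A B).trans ?_
    rw [mul_pow]
    exact mul_le_mul hA hB (fr_nonneg _) (sq_nonneg _)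
  have h3 := (abs_le.1 (abs_le_of_sq_le_sq' h2 (mul_nonneg ha hb) |> fun h => abs_le.2 h)).2
  nlinarith

lemma fr_mul (A B : Matrix α β ℝ) : fr (A * Bᵀ) = trace (Aᵀ * A * (Bᵀ * B)ᵀ) := by
  rw [fr_eq]
  simp only [transpose_mul, transpose_transpose]
  rw [← Matrix.mul_assoc, trace_mul_comm]
  simp only [Matrix.mul_assoc]

lemma fr_tt (A : Matrix α β ℝ) : fr (Aᵀ * A) = fr (A * Aᵀ) := by
  rw [fr_mul, fr_eq]

lemma fr_mix {A B : Matrix α β ℝ} {s t : ℝ} (hA : fr (A * Aᵀ) ≤ s ^ 4)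
    (hB : fr (B * Bᵀ) ≤ t ^ 4) : fr (A * Bᵀ) ≤ (s * t) ^ 2 := by
  have h : fr (A * Bᵀ) ^ 2 ≤ ((s * t) ^ 2) ^ 2 := by
    rw [fr_mul]
    refine (ip_sq _ _).trans ?_
    rw [fr_tt, fr_tt]
    calc _ ≤ s ^ 4 * t ^ 4 := mul_le_mul hA hB (fr_nonneg _) (by positivity)
      _ = _ := by ring
  exact (abs_le_of_sq_le_sq' h (sq_nonneg _)).2

/-- the triangle inequality for the fourth Schatten norm -/
lemma q_add {A B : Matrix α β ℝ} {s t : ℝ} (hs : 0 ≤ s) (ht : 0 ≤ t) (hA : fr (A * Aᵀ) ≤ s ^ 4)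
    (hB : fr (B * Bᵀ) ≤ t ^ 4) : fr ((A + B) * (A + B)ᵀ) ≤ (s + t) ^ 4 := by
  have e : (A + B) * (A + B)ᵀ = A * Aᵀ + A * Bᵀ + (B * Aᵀ + B * Bᵀ) := by
    rw [transpose_add, Matrix.add_mul, Matrix.mul_add, Matrix.mul_add]
  have h := fr_add (by positivity) (by positivity)
    (fr_add (mul_nonneg hs hs) (mul_nonneg hs ht) (fr_mix hA hA) (fr_mix hA hB))
    (fr_add (mul_nonneg ht hs) (mul_nonneg ht ht) (fr_mix hB hA) (fr_mix hB hB))
  rw [e]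
  refine h.trans (le_of_eq ?_)
  ring

end Fr

section Main
variable {ι : Type} [Fintype ι] [DecidableEq ι]

lemma expand (A R : Matrix ι ι ℝ) : trace ((A + R) ^ 5) =
    trace (A * A * A * A * A) + 5 * trace (A * A * A * A * R) + 5 * trace (A * A * A * (R * R)) +
      5 * trace (A * A * R * A * R) + 5 * trace (A * A * (R * R * R)) +
      5 * trace (A * R * A * (R * R)) + 5 * trace (A * (R * R * R * R)) +
      trace (R * R * R * R * R) := by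
  have c : ∀ a b c d e : Matrix ι ι ℝ,
      trace (a * (b * (c * (d * e)))) = trace (b * (c * (d * (e * a)))) := fun a b c d e => by
    rw [trace_mul_comm]
    simp only [Matrix.mul_assoc]
  simp only [pow_succ, pow_zero, Matrix.one_mul, Matrix.add_mul, Matrix.mul_add, trace_add,
    Matrix.mul_assoc]
  linarith [c A A A A R, c A A A R A, c A A R A A, c A R A A A, c A A A R R, c A A R R A,
    c A R R A A, c R R A A A, c A A R A R, c A R A R A, c R A R A A, c A R A A R, c A A R R R,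
    c A R R R A, c R R R A A, c R R A A R, c A R A R R, c R A R R A, c A R R A R, c R R A R A,
    c A R R R R, c R R R R A, c R R R A R, c R R A R R]

omit [DecidableEq ι] in
lemma sandwich (u : ι → ℝ) (Z : Matrix ι ι ℝ) :
    vecMulVec u u * Z * vecMulVec u u = (u ⬝ᵥ Z *ᵥ u) • vecMulVec u u := by
  ext i j
  simp only [mul_apply, vecMulVec_apply, Matrix.smul_apply, smul_eq_mul, dotProduct, mulVec,
    sum_mul, mul_sum]
  rw [sum_comm]
  exact sum_congr rfl fun a _ => sum_congr rfl fun b _ => by ring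

omit [DecidableEq ι] in
lemma tr_vv (u : ι → ℝ) (Z : Matrix ι ι ℝ) : trace (vecMulVec u u * Z) = u ⬝ᵥ Z *ᵥ u := by
  simp only [trace, Matrix.diag, mul_apply, vecMulVec_apply, dotProduct, mulVec, mul_sum]
  rw [sum_comm]
  exact sum_congr rfl fun a _ => sum_congr rfl fun b _ => by ring

omit [DecidableEq ι] in
lemma sym_dot {R : Matrix ι ι ℝ} (hR : Rᵀ = R) (u v : ι → ℝ) :
    u ⬝ᵥ R *ᵥ v = (R *ᵥ u) ⬝ᵥ v := by
  rw [dotProduct_mulVec, ← mulVec_transpose, hR]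

omit [DecidableEq ι] in
lemma tr_five {R : Matrix ι ι ℝ} (hR : Rᵀ = R) {B : ℝ}
    (hq : ∀ φ : ι → ℝ, -B * (φ ⬝ᵥ φ) ≤ φ ⬝ᵥ R *ᵥ φ) :
    -B * fr (R * Rᵀ) ≤ trace (R * R * R * R * R) := by
  have e : R * R * R * R * R = (R * Rᵀ)ᵀ * (R * (R * Rᵀ)) := by
    simp only [transpose_mul, hR, Matrix.mul_assoc]
  rw [e]
  generalize R * Rᵀ = S
  have h1 : fr S = ∑ j, (fun i => S i j) ⬝ᵥ fun i => S i j := by
    rw [fr, sum_comm]
    simp only [dotProduct, sq]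
  have h2 : trace (Sᵀ * (R * S)) = ∑ j, (fun i => S i j) ⬝ᵥ R *ᵥ fun i => S i j := by
    simp only [trace, Matrix.diag, mul_apply, transpose_apply, dotProduct, mulVec]
  rw [h1, h2, mul_sum]
  exact sum_le_sum fun j _ => hq _

theorem main (u : ι → ℝ) {R : Matrix ι ι ℝ} (hR : Rᵀ = R) {t M B : ℝ} (ht : 0 ≤ t)
    (hM : u ⬝ᵥ u = M) (hq : ∀ φ : ι → ℝ, -B * (φ ⬝ᵥ φ) ≤ φ ⬝ᵥ R *ᵥ φ) (hB : B ≤ t * M)
    (h1 : 0 ≤ u ⬝ᵥ R *ᵥ u) (h5 : B * fr (R * Rᵀ) ≤ 5 * t ^ 4 * M ^ 3 * (u ⬝ᵥ R *ᵥ u)) :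
    (t * M) ^ 5 ≤ trace ((t • vecMulVec u u + R) ^ 5) := by
  have dn : ∀ v : ι → ℝ, 0 ≤ v ⬝ᵥ v := fun v => sum_nonneg fun _ _ => mul_self_nonneg _
  have hM0 : 0 ≤ M := hM ▸ dn u
  set V := vecMulVec u u with hV
  have vv : V * V = M • V := by
    have := sandwich u 1
    rwa [Matrix.mul_one, one_mulVec, hM] at this
  have v3 : V * V * V = (M * M) • V := by rw [vv, smul_mul_assoc, vv, smul_smul]
  have v4 : V * V * V * V = (M * M * M) • V := by rw [v3, smul_mul_assoc, vv, smul_smul]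
  have r2 : u ⬝ᵥ (R * R) *ᵥ u = (R *ᵥ u) ⬝ᵥ (R *ᵥ u) := by rw [← mulVec_mulVec, sym_dot hR]
  have r3 : u ⬝ᵥ (R * R * R) *ᵥ u = (R *ᵥ u) ⬝ᵥ R *ᵥ (R *ᵥ u) := by
    rw [← mulVec_mulVec, ← mulVec_mulVec, sym_dot hR]
  have r4 : u ⬝ᵥ (R * R * R * R) *ᵥ u = (R *ᵥ (R *ᵥ u)) ⬝ᵥ (R *ᵥ (R *ᵥ u)) := by
    rw [← mulVec_mulVec, ← mulVec_mulVec, ← mulVec_mulVec, sym_dot hR, sym_dot hR]
  have t0 : trace (V * V * V * V * V) = M ^ 5 := by
    rw [v4, smul_mul_assoc, vv, smul_smul, trace_smul, ← Matrix.mul_one V, tr_vv, one_mulVec, hM,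
      smul_eq_mul]
    ring
  have t1 : trace (V * V * V * V * R) = M * M * M * (u ⬝ᵥ R *ᵥ u) := by
    rw [v4, smul_mul_assoc, trace_smul, tr_vv, smul_eq_mul]
  have t2 : trace (V * V * V * (R * R)) = M * M * ((R *ᵥ u) ⬝ᵥ (R *ᵥ u)) := by
    rw [v3, smul_mul_assoc, trace_smul, tr_vv, smul_eq_mul, r2]
  have t3 : trace (V * V * R * V * R) = M * ((u ⬝ᵥ R *ᵥ u) * (u ⬝ᵥ R *ᵥ u)) := by
    rw [vv, smul_mul_assoc, smul_mul_assoc, smul_mul_assoc, sandwich, smul_mul_assoc, trace_smul,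
      trace_smul, tr_vv, smul_eq_mul, smul_eq_mul]
  have t4 : trace (V * V * (R * R * R)) = M * ((R *ᵥ u) ⬝ᵥ R *ᵥ (R *ᵥ u)) := by
    rw [vv, smul_mul_assoc, trace_smul, tr_vv, smul_eq_mul, r3]
  have t5 : trace (V * R * V * (R * R)) = (u ⬝ᵥ R *ᵥ u) * ((R *ᵥ u) ⬝ᵥ (R *ᵥ u)) := by
    rw [sandwich, smul_mul_assoc, trace_smul, tr_vv, smul_eq_mul, r2]
  have t6 : trace (V * (R * R * R * R)) = (R *ᵥ (R *ᵥ u)) ⬝ᵥ (R *ᵥ (R *ᵥ u)) := by
    rw [tr_vv, r4]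
  rw [expand]
  simp only [smul_mul_assoc, mul_smul_comm, trace_smul, smul_eq_mul, t0, t1, t2, t3, t4, t5, t6]
  have a2 := dn (R *ᵥ u)
  have a3 := hq (R *ᵥ u)
  have a4 := dn (R *ᵥ (R *ᵥ u))
  have a5 := tr_five hR hq
  generalize u ⬝ᵥ R *ᵥ u = x1 at *
  generalize (R *ᵥ u) ⬝ᵥ (R *ᵥ u) = x2 at *
  generalize (R *ᵥ u) ⬝ᵥ R *ᵥ (R *ᵥ u) = x3 at *
  generalize (R *ᵥ (R *ᵥ u)) ⬝ᵥ (R *ᵥ (R *ᵥ u)) = x4 at *
  have b1 : 0 ≤ t * t * M * (t * M * x2 + x3) :=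
    mul_nonneg (by positivity) (by nlinarith [mul_le_mul_of_nonneg_right hB a2])
  have b2 : 0 ≤ t * t * t * M * (x1 * x1) := by positivity
  have b3 : 0 ≤ t * t * (x1 * x2) := by positivity
  have b4 : 0 ≤ t * x4 := by positivity
  nlinarith

/-- closed walks of length five -/
lemma tr_pow (K : Matrix ι ι ℝ) :
    trace (K ^ 5) = ∑ e : Fin 5 → ι,
      K (e 0) (e 1) * K (e 1) (e 2) * K (e 2) (e 3) * K (e 3) (e 4) * K (e 4) (e 0) := by
  let φ : (ι × ι × ι × ι × ι) ≃ (Fin 5 → ι) :=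
    { toFun := fun q => ![q.1, q.2.2.2.2, q.2.2.2.1, q.2.2.1, q.2.1]
      invFun := fun e => (e 0, e 4, e 3, e 2, e 1)
      left_inv := fun q => rfl
      right_inv := fun e => by
        funext i
        fin_cases i <;> rfl }
  rw [← φ.sum_comp]
  simp only [pow_succ, pow_zero, Matrix.one_mul, trace, Matrix.diag, mul_apply, sum_mul,
    Fintype.sum_prod_type]
  rfl

end Main

end Pool.Agent.MP_344f7e_co.H47
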