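import Mathlib
import Pool.Agent.MP_344f7e_co.H47.Gen

/-! The rung operator of the Moebius ladder on a biregular host with a spectral gap. -/

set_option autoImplicit false

open Finset Matrix

namespace Pool.Agent.MP_344f7e_co.H47

variable {X Y : Type} [Fintype X] [Fintype Y]

lemma push3 {α β γ δ : Type} [Fintype α] [Fintype β] [Fintype γ] [Fintype δ]
    (F : α → β → γ → δ → ℝ) :
    ∑ x, ∑ a, ∑ b, ∑ c, F x a b c = ∑ a, ∑ b, ∑ c, ∑ x, F x a b c := by
  rw [sum_comm]
  refine sum_congr rfl fun a _ => ?_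
  rw [sum_comm]
  exact sum_congr rfl fun b _ => sum_comm

/-- a kernel on pairs of edges -/
def T (W G₁ G₂ : X → Y → ℝ) : Matrix (X × Y) (X × Y) ℝ :=
  of fun e e' => W e.1 e.2 * G₁ e.1 e'.2 * G₂ e'.1 e.2 * W e'.1 e'.2

/-- a weighted triple codegree -/
def tau (W G : X → Y → ℝ) (a a' c : Y) : ℝ := ∑ x, G x a * G x a' * W x c

omit [Fintype X] [Fintype Y] in
lemma T_tr (W G₁ G₂ : X → Y → ℝ) : (T W G₁ G₂)ᵀ = T W G₂ G₁ := by
  ext e e'
  simp only [T, transpose_apply, of_apply]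
  ring

lemma cube {W : X → Y → ℝ} (hW : ∀ x y, W x y * W x y = W x y) (G₁ G₂ : X → Y → ℝ) :
    fr (T W G₁ G₂ * (T W G₁ G₂)ᵀ) = ∑ a, ∑ a', ∑ b, ∑ b',
      tau W G₂ a a' b * tau W G₂ a a' b' * (tau W G₁ b b' a * tau W G₁ b b' a') := by
  have h1 : ∀ e e' : X × Y, (T W G₁ G₂ * (T W G₁ G₂)ᵀ) e e' =
      W e.1 e.2 * W e'.1 e'.2 * ∑ b, G₁ e.1 b * G₁ e'.1 b * tau W G₂ e.2 e'.2 b := by
    intro e e'
    simp only [mul_apply, transpose_apply, T, of_apply, Fintype.sum_prod_type, tau, mul_sum]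
    rw [sum_comm]
    refine sum_congr rfl fun b _ => sum_congr rfl fun x _ => ?_
    linear_combination (W e.1 e.2 * W e'.1 e'.2 * G₁ e.1 b * G₁ e'.1 b * G₂ x e.2 * G₂ x e'.2) *
      hW x b
  have h2 : ∀ (x x' : X) (a a' : Y),
      (W x a * W x' a' * ∑ b, G₁ x b * G₁ x' b * tau W G₂ a a' b) ^ 2 = ∑ b, ∑ b',
        tau W G₂ a a' b * tau W G₂ a a' b' *
          (G₁ x b * G₁ x b' * W x a * (G₁ x' b * G₁ x' b' * W x' a')) := by
    intro x x' a a'
    rw [mul_pow, mul_pow, sq, sq, sq, hW, hW, sum_mul_sum]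
    simp only [mul_sum]
    exact sum_congr rfl fun b _ => sum_congr rfl fun b' _ => by ring
  simp only [fr, h1, Fintype.sum_prod_type, h2]
  rw [sum_comm]
  refine sum_congr rfl fun a _ => ?_
  rw [sum_congr rfl fun x _ => push3 _, push3]
  refine sum_congr rfl fun a' _ => sum_congr rfl fun b _ => sum_congr rfl fun b' _ => ?_
  rw [tau.eq_1 W G₁, tau.eq_1 W G₁, sum_mul_sum]
  simp only [mul_sum]

/-- a biregular host of density `p` whose second singular value is at most `√S` -/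
structure Host (W : X → Y → ℝ) (p S : ℝ) : Prop where
  zo : ∀ x y, W x y = 0 ∨ W x y = 1
  row : ∀ x, ∑ y, W x y = p * Fintype.card Y
  col : ∀ y, ∑ x, W x y = p * Fintype.card X
  S0 : 0 ≤ S
  gap : ∀ (u : X → ℝ) (v : Y → ℝ),
    (∑ x, ∑ y, u x * (W x y - p) * v y) ^ 2 ≤ S * (∑ x, u x ^ 2) * ∑ y, v y ^ 2

namespace Host

variable {W : X → Y → ℝ} {p S : ℝ}

lemma idem (h : Host W p S) (x : X) (y : Y) : W x y * W x y = W x y := by
  rcases h.zo x y with k | k <;> simp [k]

lemma nn (h : Host W p S) (x : X) (y : Y) : 0 ≤ W x y := by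
  rcases h.zo x y with k | k <;> simp [k]

lemma le1 (h : Host W p S) (x : X) (y : Y) : W x y ≤ 1 := by
  rcases h.zo x y with k | k <;> simp [k]

lemma op (h : Host W p S) (u : X → ℝ) :
    ∑ y, (∑ x, u x * (W x y - p)) ^ 2 ≤ S * ∑ x, u x ^ 2 := by
  have k := h.gap u fun y => ∑ x, u x * (W x y - p)
  have e : ∑ x, ∑ y, u x * (W x y - p) * ∑ x, u x * (W x y - p) =
      ∑ y, (∑ x, u x * (W x y - p)) ^ 2 := by
    rw [sum_comm]
    exact sum_congr rfl fun y _ => by rw [← sum_mul, sq]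
  rw [e] at k
  have z : 0 ≤ ∑ y, (∑ x, u x * (W x y - p)) ^ 2 := sum_nonneg fun _ _ => sq_nonneg _
  rcases z.eq_or_lt with z | z
  · rw [← z]
    exact mul_nonneg h.S0 (sum_nonneg fun _ _ => sq_nonneg _)
  · rw [sq] at k
    exact le_of_mul_le_mul_right k z

/-- the codegree deviation -/
def cy (W : X → Y → ℝ) (p : ℝ) (a b : Y) : ℝ := ∑ x, (W x a - p) * (W x b - p)

/-- the excess of four-cycles -/
def c4 (W : X → Y → ℝ) (p : ℝ) : ℝ := ∑ a, ∑ b, cy W p a b ^ 2

lemma c4_nonneg : 0 ≤ c4 W p := sum_nonneg fun _ _ => sum_nonneg fun _ _ => sq_nonneg _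

lemma colz (h : Host W p S) (y : Y) : ∑ x, (W x y - p) = 0 := by
  rw [sum_sub_distrib, h.col]
  simp [mul_comm]

lemma cy_eq (h : Host W p S) (a b : Y) : ∑ x, W x a * (W x b - p) = cy W p a b := by
  have : ∀ x, W x a * (W x b - p) = (W x a - p) * (W x b - p) + p * (W x b - p) := fun x => by ring
  simp only [this, sum_add_distrib, ← mul_sum, h.colz, cy, mul_zero, add_zero]

lemma cod (h : Host W p S) (a b : Y) :
    ∑ x, W x a * W x b = cy W p a b + p * (p * Fintype.card X) := by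
  have : ∀ x, W x a * W x b = W x a * (W x b - p) + p * W x a := fun x => by ring
  simp only [this, sum_add_distrib, ← mul_sum, h.cy_eq, h.col]

lemma c4_eq (W : X → Y → ℝ) (p : ℝ) :
    c4 W p = ∑ x, ∑ x', (∑ y, (W x y - p) * (W x' y - p)) ^ 2 := by
  have := fr_tt (of fun x y => W x y - p)
  simpa only [fr, mul_apply, transpose_apply, of_apply, c4, cy] using this

/-- the mixed term -/
lemma q1 (h : Host W p S) : fr (T W (fun x y => W x y - p) (fun _ _ => p) *
    (T W (fun x y => W x y - p) (fun _ _ => p))ᵀ) =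
      p ^ 8 * (Fintype.card X * Fintype.card Y) ^ 2 * c4 W p := by
  have e1 : ∀ a a' b, tau W (fun _ _ => p) a a' b = p * p * (p * Fintype.card X) := by
    intro a a' b
    simp only [tau, ← mul_sum, h.col]
  have e2 : ∀ b b', ∑ a, tau W (fun x y => W x y - p) b b' a =
      p * Fintype.card Y * cy W p b b' := by
    intro b b'
    simp only [tau]
    rw [sum_comm]
    simp only [← mul_sum, h.row, cy]
    rw [← sum_mul, mul_comm]
  rw [cube h.idem]
  simp only [e1]
  rw [sum_congr rfl fun a _ => sum_congr rfl fun a' _ => (Fintype.sum_prod_type' _).symm,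
    ← Fintype.sum_prod_type', sum_comm, Fintype.sum_prod_type, c4, mul_sum]
  refine sum_congr rfl fun b _ => ?_
  rw [mul_sum]
  refine sum_congr rfl fun b' _ => ?_
  rw [Fintype.sum_prod_type]
  simp only [← mul_sum, ← sum_mul, e2]
  ring

/-- the row sums of the squared triple codegrees -/
def be (W : X → Y → ℝ) (p : ℝ) (a b : Y) : ℝ := ∑ z, tau W (fun x y => W x y - p) a z b ^ 2

lemma be_nonneg (a b : Y) : 0 ≤ be W p a b := sum_nonneg fun _ _ => sq_nonneg _

lemma be_le (h : Host W p S) (a b : Y) : be W p a b ≤ S * ∑ x, (W x a - p) ^ 2 * W x b := by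
  have k := h.op fun x => (W x a - p) * W x b
  have e : ∀ x, ((W x a - p) * W x b) ^ 2 = (W x a - p) ^ 2 * W x b := fun x => by
    rw [mul_pow, sq (W x b), h.idem]
  simp only [e] at k
  refine le_trans (le_of_eq (sum_congr rfl fun z _ => ?_)) k
  rw [tau]
  exact congrArg (· ^ 2) (sum_congr rfl fun x _ => by ring)

lemma be_le1 (h : Host W p S) (p0 : 0 ≤ p) (p1 : p ≤ 1) (a b : Y) :
    be W p a b ≤ S * (p * Fintype.card X) := by
  refine (h.be_le a b).trans (mul_le_mul_of_nonneg_left ?_ h.S0)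
  rw [← h.col b]
  refine sum_le_sum fun x _ => mul_le_of_le_one_left (h.nn x b) ?_
  rcases h.zo x a with k | k <;> rw [k] <;> nlinarith

lemma be_le2 (h : Host W p S) (p0 : 0 ≤ p) (p1 : p ≤ 1) (a b : Y) :
    be W p a b ≤ S * (cy W p a b + 2 * (p * (p * Fintype.card X))) := by
  refine (h.be_le a b).trans (mul_le_mul_of_nonneg_left ?_ h.S0)
  have : ∑ x, (W x a - p) ^ 2 * W x b ≤ ∑ x, (W x a * W x b + p * W x b) := by
    refine sum_le_sum fun x _ => ?_
    rw [← add_mul]
    refine mul_le_mul_of_nonneg_right ?_ (h.nn x b)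
    rcases h.zo x a with k | k <;> rw [k] <;> nlinarith
  rw [sum_add_distrib, ← mul_sum, h.cod, h.col] at this
  linarith

lemma be_sum (h : Host W p S) : ∑ a, ∑ b, be W p a b ≤ p * Fintype.card Y * c4 W p := by
  have e : ∀ b, ∑ a, be W p a b =
      ∑ x, ∑ x', W x b * W x' b * (∑ y, (W x y - p) * (W x' y - p)) ^ 2 := by
    intro b
    have k := fr_tt (of fun x y => W x b * (W x y - p))
    simp only [fr, mul_apply, transpose_apply, of_apply] at k
    refine Eq.trans (sum_congr rfl fun a _ => sum_congr rfl fun z _ => ?_)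
      (k.trans (sum_congr rfl fun x _ => sum_congr rfl fun x' _ => ?_))
    · refine congrArg (· ^ 2) (sum_congr rfl fun x _ => ?_)
      linear_combination (-(W x a - p) * (W x z - p)) * h.idem x b
    · have : ∑ y, W x b * (W x y - p) * (W x' b * (W x' y - p)) =
          W x b * W x' b * ∑ y, (W x y - p) * (W x' y - p) := by
        rw [mul_sum]
        exact sum_congr rfl fun y _ => by ring
      rw [this, mul_pow, mul_pow, sq (W x b), sq (W x' b), h.idem, h.idem]
  rw [sum_comm]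
  simp only [e]
  rw [c4_eq, mul_sum, sum_comm]
  refine sum_le_sum fun x _ => ?_
  rw [mul_sum, sum_comm]
  refine sum_le_sum fun x' _ => ?_
  rw [← sum_mul, ← h.row x]
  exact mul_le_mul_of_nonneg_right
    (sum_le_sum fun b _ => mul_le_of_le_one_right (h.nn x b) (h.le1 x' b)) (sq_nonneg _)

lemma q3_be (h : Host W p S) : fr (T W (fun x y => W x y - p) (fun x y => W x y - p) *
    (T W (fun x y => W x y - p) (fun x y => W x y - p))ᵀ) ≤
      ∑ a, ∑ b, be W p a b * be W p b a := by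
  rw [cube h.idem]
  set τ := tau W (fun x y => W x y - p) with hτ
  have sy : ∀ a a' b, τ a a' b = τ a' a b := fun a a' b =>
    sum_congr rfl fun x _ => by ring
  have e1 : ∑ a, ∑ a', ∑ b, ∑ b', τ a a' b ^ 2 * τ b b' a ^ 2 =
      ∑ a, ∑ b, be W p a b * be W p b a := by
    refine sum_congr rfl fun a _ => ?_
    rw [sum_comm]
    exact sum_congr rfl fun b _ => (sum_mul_sum _ _ _ _).symm
  have e2 : ∑ a, ∑ a', ∑ b, ∑ b', τ a a' b' ^ 2 * τ b b' a' ^ 2 =
      ∑ a, ∑ b, be W p a b * be W p b a := by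
    rw [← e1, sum_comm]
    refine sum_congr rfl fun a _ => sum_congr rfl fun a' _ => ?_
    rw [sum_comm]
    exact sum_congr rfl fun b _ => sum_congr rfl fun b' _ => by rw [sy a' a, sy b' b]
  have : 2 * ∑ a, ∑ a', ∑ b, ∑ b', τ a a' b * τ a a' b' * (τ b b' a * τ b b' a') ≤
      ∑ a, ∑ a', ∑ b, ∑ b', τ a a' b ^ 2 * τ b b' a ^ 2 +
        ∑ a, ∑ a', ∑ b, ∑ b', τ a a' b' ^ 2 * τ b b' a' ^ 2 := by
    simp only [mul_sum, ← sum_add_distrib]
    refine sum_le_sum fun a _ => sum_le_sum fun a' _ => sum_le_sum fun b _ =>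
      sum_le_sum fun b' _ => ?_
    nlinarith [sq_nonneg (τ a a' b * τ b b' a - τ a a' b' * τ b b' a')]
  linarith

/-- the cube sum is bounded by the excess of four-cycles -/
lemma q3 (h : Host W p S) (p0 : 0 ≤ p) (p1 : p ≤ 1) {κ : ℝ} (hκ : κ = p * (p * Fintype.card X)) :
    2 * κ * fr (T W (fun x y => W x y - p) (fun x y => W x y - p) *
      (T W (fun x y => W x y - p) (fun x y => W x y - p))ᵀ) ≤
      S * (5 * κ ^ 2 * (p * Fintype.card Y) + S * (p * Fintype.card X)) * c4 W p := by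
  have κ0 : 0 ≤ κ := by rw [hκ]; positivity
  refine (mul_le_mul_of_nonneg_left h.q3_be (by positivity)).trans ?_
  have s : ∀ a b, 2 * κ * (be W p a b * be W p b a) ≤
      S * (5 * κ ^ 2) * be W p b a + S * (S * (p * Fintype.card X)) * cy W p a b ^ 2 := by
    intro a b
    have a1 := h.be_le2 p0 p1 a b
    rw [← hκ] at a1
    have a2 : 2 * κ * be W p a b ≤ S * (5 * κ ^ 2 + cy W p a b ^ 2) := by
      refine (mul_le_mul_of_nonneg_left a1 (by positivity)).trans ?_
      rw [mul_left_comm]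
      exact mul_le_mul_of_nonneg_left (by nlinarith [sq_nonneg (κ - cy W p a b)]) h.S0
    have a3 := mul_le_mul_of_nonneg_right a2 (be_nonneg (W := W) (p := p) b a)
    have a4 := mul_le_mul_of_nonneg_left (h.be_le1 p0 p1 b a)
      (mul_nonneg h.S0 (sq_nonneg (cy W p a b)))
    nlinarith
  have t : ∑ a, ∑ b, be W p b a ≤ p * Fintype.card Y * c4 W p := by
    rw [sum_comm]
    exact h.be_sum
  calc _ = ∑ a, ∑ b, 2 * κ * (be W p a b * be W p b a) := by simp only [mul_sum]
    _ ≤ _ := sum_le_sum fun a _ => sum_le_sum fun b _ => s a b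
    _ = S * (5 * κ ^ 2) * ∑ a, ∑ b, be W p b a + S * (S * (p * Fintype.card X)) * c4 W p := by
      simp only [sum_add_distrib, mul_sum, c4]
    _ ≤ _ := by
      have := mul_le_mul_of_nonneg_left t (mul_nonneg h.S0 (by positivity : 0 ≤ 5 * κ ^ 2))
      nlinarith

end Host

end Pool.Agent.MP_344f7e_co.H47
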