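import Mathlib
import Pool.Agent.MP_344f7e_co.H47.Host

/-! The lower bound for the trace, the count, and the passage from characters to the gap. -/

set_option autoImplicit false

open Finset Matrix

namespace Pool.Agent.MP_344f7e_co.H47

variable {X Y : Type} [Fintype X] [Fintype Y]

lemma form (W G₁ G₂ : X → Y → ℝ) (φ : X × Y → ℝ) : φ ⬝ᵥ T W G₁ G₂ *ᵥ φ =
    ∑ y, ∑ y', (∑ x, W x y * φ (x, y) * G₁ x y') * ∑ x', W x' y' * φ (x', y') * G₂ x' y := by
  simp only [dotProduct, mulVec, T, of_apply, Fintype.sum_prod_type, mul_sum, sum_mul]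
  rw [sum_comm]
  refine sum_congr rfl fun y _ => ?_
  rw [sum_congr rfl fun x _ => sum_comm, sum_comm]
  refine sum_congr rfl fun y' _ => ?_
  rw [sum_comm]
  exact sum_congr rfl fun x _ => sum_congr rfl fun x' _ => by ring

lemma form_tr (A : Matrix (X × Y) (X × Y) ℝ) (φ : X × Y → ℝ) : φ ⬝ᵥ Aᵀ *ᵥ φ = φ ⬝ᵥ A *ᵥ φ := by
  rw [mulVec_transpose, dotProduct_comm, dotProduct_mulVec]

lemma form1 (W G : X → Y → ℝ) (p : ℝ) (φ : X × Y → ℝ) : φ ⬝ᵥ T W G (fun _ _ => p) *ᵥ φ =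
    p * ∑ x, ∑ y', (∑ y, W x y * φ (x, y)) * G x y' * ∑ x', W x' y' * φ (x', y') := by
  rw [form, sum_comm, sum_comm (s := (univ : Finset X)), mul_sum]
  refine sum_congr rfl fun y' _ => ?_
  simp only [← sum_mul]
  rw [sum_comm]
  simp only [← sum_mul]
  ring

namespace Host

variable {W : X → Y → ℝ} {p S : ℝ}

lemma low1 (h : Host W p S) (p0 : 0 ≤ p) {b : ℝ} (hb : 0 ≤ b)
    (hS : S * (p * Fintype.card Y) * (p * Fintype.card X) ≤ b ^ 2) (φ : X × Y → ℝ) :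
    -(p * b) * (φ ⬝ᵥ φ) ≤ φ ⬝ᵥ T W (fun x y => W x y - p) (fun _ _ => p) *ᵥ φ := by
  have n0 : 0 ≤ φ ⬝ᵥ φ := sum_nonneg fun _ _ => mul_self_nonneg _
  have nn : φ ⬝ᵥ φ = ∑ x, ∑ y, φ (x, y) ^ 2 := by
    simp only [dotProduct, Fintype.sum_prod_type, sq]
  have a1 : ∑ x, (∑ y, W x y * φ (x, y)) ^ 2 ≤ p * Fintype.card Y * (φ ⬝ᵥ φ) := by
    rw [nn, mul_sum]
    refine sum_le_sum fun x _ => (sum_mul_sq_le_sq_mul_sq _ _ _).trans (le_of_eq ?_)
    simp only [sq (W _ _), h.idem, h.row]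
  have a2 : ∑ y, (∑ x, W x y * φ (x, y)) ^ 2 ≤ p * Fintype.card X * (φ ⬝ᵥ φ) := by
    rw [nn, sum_comm, mul_sum]
    refine sum_le_sum fun y _ => (sum_mul_sq_le_sq_mul_sq _ _ _).trans (le_of_eq ?_)
    simp only [sq (W _ _), h.idem, h.col]
  have k := h.gap (fun x => ∑ y, W x y * φ (x, y)) fun y => ∑ x, W x y * φ (x, y)
  have S0 := h.S0
  have k2 : S * (∑ x, (∑ y, W x y * φ (x, y)) ^ 2) * ∑ y, (∑ x, W x y * φ (x, y)) ^ 2 ≤
      (b * (φ ⬝ᵥ φ)) ^ 2 :=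
    calc _ ≤ S * (p * Fintype.card Y * (φ ⬝ᵥ φ)) * (p * Fintype.card X * (φ ⬝ᵥ φ)) :=
          mul_le_mul (mul_le_mul_of_nonneg_left a1 S0) a2 (sum_nonneg fun _ _ => sq_nonneg _)
            (by positivity)
      _ = S * (p * Fintype.card Y) * (p * Fintype.card X) * (φ ⬝ᵥ φ) ^ 2 := by ring
      _ ≤ b ^ 2 * (φ ⬝ᵥ φ) ^ 2 := mul_le_mul_of_nonneg_right hS (sq_nonneg _)
      _ = _ := by ring
  have k3 := mul_le_mul_of_nonneg_left (abs_le_of_sq_le_sq' (k.trans k2) (mul_nonneg hb n0)).1 p0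
  rw [form1]
  linarith

lemma low3 (h : Host W p S) (φ : X × Y → ℝ) :
    -S * (φ ⬝ᵥ φ) ≤ φ ⬝ᵥ T W (fun x y => W x y - p) (fun x y => W x y - p) *ᵥ φ := by
  rw [form]
  set Z : Y → Y → ℝ := fun y y' => ∑ x, W x y * φ (x, y) * (W x y' - p) with hZ
  have a1 : ∑ y, ∑ y', Z y y' ^ 2 ≤ S * (φ ⬝ᵥ φ) := by
    have nn : φ ⬝ᵥ φ = ∑ y, ∑ x, φ (x, y) ^ 2 := by
      rw [sum_comm]
      simp only [dotProduct, Fintype.sum_prod_type, sq]
    rw [nn, mul_sum]
    refine sum_le_sum fun y _ => (h.op fun x => W x y * φ (x, y)).trans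
      (mul_le_mul_of_nonneg_left (sum_le_sum fun x _ => ?_) h.S0)
    rw [mul_pow, sq (W x y), h.idem]
    exact mul_le_of_le_one_left (sq_nonneg _) (h.le1 x y)
  have a2 : ∑ y, ∑ y', Z y' y ^ 2 = ∑ y, ∑ y', Z y y' ^ 2 := sum_comm
  have a3 : 0 ≤ ∑ y, ∑ y', (Z y y' + Z y' y) ^ 2 :=
    sum_nonneg fun _ _ => sum_nonneg fun _ _ => sq_nonneg _
  simp only [add_sq, sum_add_distrib, mul_assoc, ← mul_sum] at a3
  change _ ≤ ∑ y, ∑ y', Z y y' * Z y' y
  linarith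

lemma r1 (h : Host W p S) :
    (fun e : X × Y => W e.1 e.2) ⬝ᵥ T W (fun x y => W x y - p) (fun _ _ => p) *ᵥ
      (fun e : X × Y => W e.1 e.2) = 0 := by
  rw [form1, sum_comm]
  simp only [h.idem, h.row, h.col, ← sum_mul, ← mul_sum, h.colz, mul_zero, zero_mul,
    sum_const_zero]

lemma r3 (h : Host W p S) :
    (fun e : X × Y => W e.1 e.2) ⬝ᵥ T W (fun x y => W x y - p) (fun x y => W x y - p) *ᵥ
      (fun e : X × Y => W e.1 e.2) = c4 W p := by
  rw [form]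
  simp only [h.idem, h.cy_eq, c4]
  refine sum_congr rfl fun a _ => sum_congr rfl fun b _ => ?_
  rw [sq]
  congr 1
  exact sum_congr rfl fun x _ => mul_comm _ _

theorem bound [DecidableEq X] [DecidableEq Y]
    (h : Host W p ((p ^ 2 / 13) ^ 2 * Fintype.card X * Fintype.card Y)) (p0 : 0 < p) (p1 : p ≤ 1)
    (hX : 0 < Fintype.card X) :
    p ^ 15 * (Fintype.card X : ℝ) ^ 5 * (Fintype.card Y : ℝ) ^ 5 ≤ trace (T W W W ^ 5) := by
  have m0 : (0 : ℝ) < Fintype.card X := by exact_mod_cast hX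
  have n0 : (0 : ℝ) ≤ Fintype.card Y := Nat.cast_nonneg _
  have c0 : 0 ≤ c4 W p := c4_nonneg
  have l1 := h.low1 p0.le (b := p ^ 3 / 13 * (Fintype.card X * Fintype.card Y)) (by positivity)
    (le_of_eq (by ring))
  have l3 := h.low3
  have e1 := h.q1
  have e3 := h.q3 p0.le p1 rfl
  have s1 := h.r1
  have s3 := h.r3
  have hM : (fun e : X × Y => W e.1 e.2) ⬝ᵥ (fun e : X × Y => W e.1 e.2) =
      p * (Fintype.card X * Fintype.card Y) := by
    simp only [dotProduct, Fintype.sum_prod_type, h.idem, h.row, sum_const, card_univ,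
      nsmul_eq_mul]
    ring
  have dec : T W W W = p ^ 2 • vecMulVec (fun e : X × Y => W e.1 e.2) (fun e => W e.1 e.2) +
      (T W (fun x y => W x y - p) (fun _ _ => p) + (T W (fun x y => W x y - p) (fun _ _ => p))ᵀ +
        T W (fun x y => W x y - p) (fun x y => W x y - p)) := by
    ext e e'
    simp only [T, of_apply, Matrix.add_apply, Matrix.smul_apply, vecMulVec_apply, smul_eq_mul,
      transpose_apply]
    ring
  have sy := T_tr W (fun x y => W x y - p) (fun x y => W x y - p)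
  generalize T W (fun x y => W x y - p) (fun _ _ => p) = A at *
  generalize T W (fun x y => W x y - p) (fun x y => W x y - p) = C at *
  generalize c4 W p = c at *
  generalize (Fintype.card X : ℝ) = m at *
  generalize (Fintype.card Y : ℝ) = n at *
  obtain ⟨L, L0, hL⟩ : ∃ L : ℝ, 0 ≤ L ∧ L ^ 4 = p ^ 7 * (m * n) ^ 2 * c :=
    ⟨√(√(p ^ 7 * (m * n) ^ 2 * c)), Real.sqrt_nonneg _, by
      rw [show 4 = 2 * 2 from rfl, pow_mul, Real.sq_sqrt (Real.sqrt_nonneg _),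
        Real.sq_sqrt (by positivity)]⟩
  have v0 : 0 ≤ p ^ 7 * (m * n) ^ 2 * c := by positivity
  have f1 : fr (A * Aᵀ) ≤ L ^ 4 := by
    rw [e1, hL]
    nlinarith [mul_le_mul_of_nonneg_right p1 v0]
  have f2 : fr (Aᵀ * Aᵀᵀ) ≤ L ^ 4 := by rwa [transpose_transpose, fr_tt]
  have f3 : fr (C * Cᵀ) ≤ (7 / 20 * L) ^ 4 := by
    rw [mul_pow, hL]
    refine le_of_mul_le_mul_left (e3.trans ?_) (by positivity : 0 < 2 * (p * (p * m)))
    have : 0 ≤ p * (p * m) * (p ^ 7 * (m * n) ^ 2 * c) := by positivity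
    nlinarith
  have f := q_add (by positivity) (by positivity) (q_add L0 L0 f1 f2) f3
  rw [dec]
  refine le_trans (le_of_eq (by ring)) (main _ (B := 27 / 169 * p ^ 4 * (m * n)) ?_ (sq_nonneg p)
    hM (fun φ => ?_) ?_ ?_ ?_)
  · rw [transpose_add, transpose_add, transpose_transpose, sy, add_comm Aᵀ]
  · rw [add_mulVec, add_mulVec, dotProduct_add, dotProduct_add, form_tr]
    nlinarith [l1 φ, l3 φ]
  · have : 0 ≤ p ^ 3 * (m * n) := by positivity
    nlinarith [mul_le_mul_of_nonneg_right p1 this]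
  · rw [add_mulVec, add_mulVec, dotProduct_add, dotProduct_add, form_tr, s1, s3]
    linarith
  · rw [add_mulVec, add_mulVec, dotProduct_add, dotProduct_add, form_tr, s1, s3]
    refine (mul_le_mul_of_nonneg_left f (by positivity)).trans ?_
    rw [show L + L + 7 / 20 * L = 47 / 20 * L by ring, mul_pow, hL]
    have : 0 ≤ p ^ 11 * (m * n) ^ 3 * c := by positivity
    nlinarith

end Host

/-- closed walks of the rung operator are copies of the ladder -/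
lemma count [DecidableEq X] [DecidableEq Y] (E : Finset (X × Y)) (W : X → Y → ℝ)
    (h0 : ∀ x y, 0 ≤ W x y) (h1 : ∀ x y, W x y ≤ 1) (hE : ∀ x y, W x y ≠ 0 → (x, y) ∈ E) :
    trace (T W W W ^ 5) ≤ ((((univ : Finset ((Fin 5 → X) × (Fin 5 → Y))).filter
      (fun p => ∀ i j : Fin 5, (j = i ∨ j = i + 1 ∨ j = i + 2) → (p.1 i, p.2 j) ∈ E)).card : ℕ) :
        ℝ) := by
  let φ : ((Fin 5 → X) × (Fin 5 → Y)) ≃ (Fin 5 → X × Y) :=
    { toFun := fun q i => (q.1 i, q.2 (i + 1))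
      invFun := fun e => (fun i => (e i).1, fun j => (e (j - 1)).2)
      left_inv := fun q => by simp
      right_inv := fun e => by simp }
  have t0 : ∀ e e', 0 ≤ T W W W e e' := fun e e' =>
    mul_nonneg (mul_nonneg (mul_nonneg (h0 _ _) (h0 _ _)) (h0 _ _)) (h0 _ _)
  have t1 : ∀ e e', T W W W e e' ≤ 1 := fun e e' =>
    mul_le_one₀ (mul_le_one₀ (mul_le_one₀ (h1 _ _) (h0 _ _) (h1 _ _)) (h0 _ _) (h1 _ _)) (h0 _ _)
      (h1 _ _)
  have t2 : ∀ e e' : X × Y, T W W W e e' ≠ 0 →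
      (e.1, e.2) ∈ E ∧ (e.1, e'.2) ∈ E ∧ (e'.1, e.2) ∈ E := fun e e' k => by
    simp only [T, of_apply, mul_ne_zero_iff] at k
    exact ⟨hE _ _ k.1.1.1, hE _ _ k.1.1.2, hE _ _ k.1.2⟩
  rw [tr_pow, ← φ.sum_comp, card_filter]
  push_cast
  refine sum_le_sum fun q _ => ?_
  split_ifs with h
  · exact mul_le_one₀ (mul_le_one₀ (mul_le_one₀ (mul_le_one₀ (t1 _ _) (t0 _ _) (t1 _ _)) (t0 _ _)
      (t1 _ _)) (t0 _ _) (t1 _ _)) (t0 _ _) (t1 _ _)
  · refine le_of_eq (by_contra fun k => h ?_)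
    simp only [← ne_eq, mul_ne_zero_iff] at k
    obtain ⟨⟨⟨⟨k0, k1⟩, k2⟩, k3⟩, k4⟩ := k
    have a0 := t2 _ _ k0
    have a1 := t2 _ _ k1
    have a2 := t2 _ _ k2
    have a3 := t2 _ _ k3
    have a4 := t2 _ _ k4
    intro i j hij
    fin_cases i <;> rcases hij with rfl | rfl | rfl
    exacts [a4.2.2, a0.1, a0.2.1, a0.2.2, a1.1, a1.2.1, a1.2.2, a2.1, a2.2.1, a2.2.2, a3.1, a3.2.1,
      a3.2.2, a4.1, a4.2.1]

section Char
variable {G : Type} [AddCommGroup G] [Fintype G] [DecidableEq G]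

omit [DecidableEq G] in
lemma parseval (u : G → ℝ) :
    ∑ ψ : AddChar G ℂ, ‖∑ x, (u x : ℂ) * ψ (-x)‖ ^ 2 = Fintype.card G * ∑ x, u x ^ 2 := by
  classical
  have e : ∀ ψ : AddChar G ℂ, ((‖∑ x, (u x : ℂ) * ψ (-x)‖ ^ 2 : ℝ) : ℂ) =
      ∑ x, ∑ y, (u x : ℂ) * u y * ψ (y - x) := by
    intro ψ
    rw [Complex.ofReal_pow, ← Complex.mul_conj', map_sum, sum_mul_sum]
    refine sum_congr rfl fun x _ => sum_congr rfl fun y _ => ?_
    rw [map_mul, Complex.conj_ofReal, ← AddChar.map_neg_eq_conj, neg_neg, sub_eq_add_neg,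
      AddChar.map_add_eq_mul]
    ring
  refine Complex.ofReal_injective ?_
  rw [Complex.ofReal_sum]
  simp only [e]
  rw [sum_comm]
  push_cast
  rw [mul_sum]
  refine sum_congr rfl fun x _ => ?_
  rw [sum_comm]
  simp only [← mul_sum, AddChar.sum_apply_eq_ite, sub_eq_zero, mul_ite, mul_zero, sum_ite_eq',
    mem_univ, if_true]
  ring

lemma gap_of_char (A : Finset G) {s : ℝ} (s0 : 0 ≤ s)
    (hA : ∀ ψ : AddChar G ℂ, ψ ≠ 0 → ‖∑ a ∈ A, ψ a‖ ≤ s) (u v : G → ℝ) :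
    (∑ x, ∑ y, u x * ((if x + y ∈ A then (1 : ℝ) else 0) - A.card / Fintype.card G) * v y) ^ 2 ≤
      s ^ 2 * (∑ x, u x ^ 2) * ∑ y, v y ^ 2 := by
  have hN : (0 : ℝ) < Fintype.card G := by exact_mod_cast Fintype.card_pos
  have hN' : (Fintype.card G : ℂ) ≠ 0 := by exact_mod_cast hN.ne'
  have e1 : ∀ z : G, (Fintype.card G : ℂ) *
      (((if z ∈ A then (1 : ℝ) else 0) - A.card / Fintype.card G : ℝ) : ℂ) =
      ∑ ψ ∈ (univ : Finset (AddChar G ℂ)).erase 0, (∑ a ∈ A, ψ a) * ψ (-z) := by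
    intro z
    have k : ∑ ψ : AddChar G ℂ, (∑ a ∈ A, ψ a) * ψ (-z) =
        if z ∈ A then (Fintype.card G : ℂ) else 0 := by
      simp only [sum_mul, ← AddChar.map_add_eq_mul]
      rw [sum_comm]
      simp only [AddChar.sum_apply_eq_ite, add_neg_eq_zero, sum_ite_eq']
    rw [sum_erase_eq_sub (mem_univ _), k]
    split_ifs <;> simp <;> field_simp
  set B := ∑ x, ∑ y, u x * ((if x + y ∈ A then (1 : ℝ) else 0) - A.card / Fintype.card G) * v y
    with hB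
  have e2 : (Fintype.card G : ℂ) * B = ∑ ψ ∈ (univ : Finset (AddChar G ℂ)).erase 0,
      (∑ a ∈ A, ψ a) * ((∑ x, (u x : ℂ) * ψ (-x)) * ∑ y, (v y : ℂ) * ψ (-y)) := by
    have k : ∀ x y : G, (Fintype.card G : ℂ) * ((u x *
        ((if x + y ∈ A then (1 : ℝ) else 0) - A.card / Fintype.card G) * v y : ℝ) : ℂ) =
        ∑ ψ ∈ (univ : Finset (AddChar G ℂ)).erase 0,
          (∑ a ∈ A, ψ a) * ((u x : ℂ) * ψ (-x) * ((v y : ℂ) * ψ (-y))) := by
      intro x y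
      rw [Complex.ofReal_mul, Complex.ofReal_mul, mul_right_comm, mul_left_comm, e1, mul_sum]
      refine sum_congr rfl fun ψ _ => ?_
      rw [neg_add, AddChar.map_add_eq_mul]
      ring
    simp only [hB, Complex.ofReal_sum, mul_sum, k]
    rw [sum_congr rfl fun x _ => sum_comm, sum_comm]
    refine sum_congr rfl fun ψ _ => ?_
    rw [sum_comm]
    simp only [← mul_sum, ← sum_mul]
  have e3 : Fintype.card G * |B| ≤
      s * ∑ ψ : AddChar G ℂ, ‖∑ x, (u x : ℂ) * ψ (-x)‖ * ‖∑ y, (v y : ℂ) * ψ (-y)‖ := by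
    have k := congrArg norm e2
    rw [norm_mul, Complex.norm_natCast, Complex.norm_real, Real.norm_eq_abs] at k
    rw [k, mul_sum]
    refine (norm_sum_le _ _).trans (le_trans (sum_le_sum fun ψ hψ => ?_)
      (sum_le_sum_of_subset_of_nonneg (erase_subset 0 _) fun _ _ _ => by positivity))
    rw [norm_mul, norm_mul]
    exact mul_le_mul_of_nonneg_right (hA ψ (ne_of_mem_erase hψ)) (by positivity)
  have e4 := sum_mul_sq_le_sq_mul_sq (univ : Finset (AddChar G ℂ))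
    (fun ψ => ‖∑ x, (u x : ℂ) * ψ (-x)‖) fun ψ => ‖∑ y, (v y : ℂ) * ψ (-y)‖
  rw [parseval, parseval] at e4
  have e5 := pow_le_pow_left₀ (by positivity) e3 2
  rw [mul_pow, mul_pow, sq_abs] at e5
  refine le_of_mul_le_mul_left (e5.trans ?_) (by positivity : (0 : ℝ) < Fintype.card G ^ 2)
  refine (mul_le_mul_of_nonneg_left e4 (sq_nonneg s)).trans (le_of_eq ?_)
  ring

end Char

end Pool.Agent.MP_344f7e_co.H47
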